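import Pool.Agent.X29.SC.Main

set_option autoImplicit false

open Filter

/-- **Primefree intervals around several smooth curves at the same time.**
`F(x) = log x (log log x)² log log log log x / (log log log x)²`. -/
theorem Pool.Agent.Results.MP_45ff98_nt.GapsAlongSeveralCurves.result :
    -- (1) general smooth curves of separated sizes
    (∀ k r : ℕ, 1 ≤ r → ∀ ε δ : ℝ, 0 < ε → 0 < δ → ∃ κ : ℝ, 0 < κ ∧ ∀ᶠ M : ℝ in atTop,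
      ∀ (A : ℝ) (s s' : Fin r → ℝ) (φ : Fin r → ℕ → ℝ → ℝ),
      (∀ j, s j = 1 ∨ s j = -1) → (∀ j, s' j = 1 ∨ s' j = -1) →
      (∀ j, ∀ m ≤ k + 1, ∀ t ∈ Set.Icc A (A + M), HasDerivAt (φ j m) (φ j (m + 1) t) t) →
      (∀ j, ∀ t ∈ Set.Icc A (A + M), M ^ (ε - (k + 1)) ≤ s j * φ j (k + 1) t ∧
        s j * φ j (k + 1) t ≤ M ^ (-ε) ∧ 0 ≤ s' j * φ j (k + 2) t) →
      (∀ i j, i < j → ∀ t ∈ Set.Icc A (A + M),
        |φ j (k + 1) t| ≤ M ^ (-ε) * |φ i (k + 1) t| ∧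
        |φ j (k + 2) t| ≤ M ^ (-ε) * |φ i (k + 2) t|) →
      ∃ S : Finset ℕ, M ^ (1 - δ) ≤ S.card ∧ ∀ n ∈ S, (n : ℝ) ≤ M ∧ ∀ j, ∀ p : ℕ, p.Prime →
        κ * (Real.log M * Real.log (Real.log M) ^ 2 * Real.log (Real.log (Real.log (Real.log M))) /
          Real.log (Real.log (Real.log M)) ^ 2) < |(p : ℝ) - φ j 0 (A + n)|) ∧
    -- (2) distinct powers
    (∀ r : ℕ, 1 ≤ r → ∀ c a : Fin r → ℝ, (∀ j, 0 < c j) → (∀ j, ∀ m : ℕ, c j ≠ m) →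
      (∀ i j, i < j → c j < c i) → (∀ j, a j ≠ 0) → ∀ δ : ℝ, 0 < δ →
      ∃ κ : ℝ, 0 < κ ∧ ∀ᶠ N : ℕ in atTop, ∃ S : Finset ℕ, (N : ℝ) ^ (1 - δ) ≤ S.card ∧
      ∀ n ∈ S, N ≤ n ∧ n ≤ 2 * N ∧ ∀ j, ∀ p : ℕ, p.Prime →
        κ * (Real.log N * Real.log (Real.log N) ^ 2 * Real.log (Real.log (Real.log (Real.log N))) /
          Real.log (Real.log (Real.log N)) ^ 2) < |(p : ℝ) - a j * (n : ℝ) ^ (c j)|) := by
  refine ⟨fun k r hr ε δ hε hδ => ?_, fun r hr c a hc0 hc hcc ha δ hδ =>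
    Pool.Agent.X29.SC.powers r hr c a hc0 hc hcc ha δ hδ⟩
  obtain ⟨κ, hκ, h⟩ := Pool.Agent.X29.SC.several k r hr ε δ hε hδ
  refine ⟨κ, hκ, ?_⟩
  filter_upwards [h] with M hM
  intro A s s' φ hs hs' hd hy hsep
  exact hM A s s' φ hs hs' (fun j => ⟨hd j, fun t ht => (hy j t ht).1, fun t ht => (hy j t ht).2.1,
    fun t ht => (hy j t ht).2.2⟩) hsep
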