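import Mathlib
import Pool.Agent.X145.ML.Nbr

set_option autoImplicit false

/-!
# Record prime gaps around the minors of all the neighbours of a matrix

Let `f(Z) = log Z (log₂ Z)² log₄ Z / (log₃ Z)²` (iterated natural logarithms), the size of the largest gaps
between consecutive primes that are known to occur up to `Z`.

For all `n` and `K` there is `c > 0` such that for all large `Z` every box of side `Z` of integral `n × n` matrices
contains a matrix `X` with the following property. ALL minors of size at least two of ALL the matrices `X + D`,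
where the entries of `D` are at most `K` in absolute value, and all the entries of `X` are surrounded by integers
with a prime factor `≤ Z ^ (1/10)`, up to the distance `c f(Z)`. With `D = -a` this holds for the values
`χ(a)`, `|a| ≤ K`, of the characteristic polynomials of all principal submatrices of `X`.

The minors of `X + D` are not homogeneous. Modulo `p` there are two new counts: for two minors with different rows
or columns one translates `D` away; for the same rows and columns and `D ≠ D'` the two minors are linear functions of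
one row, whose kernels differ unless the matrix satisfies the nontrivial equation that a minor with one row replaced by
a row of `D - D'` vanishes (lemma of Schwartz and Zippel). The value `0` has too many solutions; modulo a small
prime, which depends on `D`, the matrix is taken to be `-D`. The sieve is that of the starting library
(`Pool.Agent.Y837.SV.gen3t`).
-/

namespace Pool.Agent.Results.MP_45ff98_nt.MinorsOfNeighbours

open Matrix

/-- The record scale `f(Z) = log Z (log₂ Z)² log₄ Z / (log₃ Z)²` (iterated natural logarithms). -/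
noncomputable def f (Z : ℝ) : ℝ :=
  Real.log Z * (Real.log (Real.log Z)) ^ 2 * Real.log (Real.log (Real.log (Real.log Z))) /
    (Real.log (Real.log (Real.log Z))) ^ 2

/-- Every integer at distance at most `c f(Z)` from `N` has a prime factor `p ≤ Z ^ (1/10)`. -/
def Isolated (c : ℝ) (Z : ℕ) (N : ℤ) : Prop :=
  ∀ n : ℤ, |(n : ℝ) - (N : ℝ)| ≤ c * f Z →
    ∃ p : ℕ, p.Prime ∧ (p : ℝ) ≤ (Z : ℝ) ^ (1 / 10 : ℝ) ∧ (p : ℤ) ∣ n

theorem Isolated.neg {c : ℝ} {Z : ℕ} {N : ℤ} (h : Isolated c Z N) : Isolated c Z (-N) := by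
  intro n hn
  obtain ⟨p, h1, h2, h3⟩ := h (-n) (by
    push_cast at hn ⊢
    rw [← abs_neg]
    refine le_trans (le_of_eq ?_) hn
    congr 1
    ring)
  exact ⟨p, h1, h2, (Int.dvd_neg).mp h3⟩

/-- **Record gaps around the minors of all neighbours.** For all `n`, `K` there are `c > 0` and `Z₀` such that
for `Z ≥ Z₀` every box `∏ (M i j, M i j + Z]` contains an integral `n × n` matrix `X` such that all its entries are
isolated, all minors (rows `r`, columns `s`) of size `k ≥ 2` of all `X + D` with `|D i j| ≤ K` are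
isolated, and the values at all integers `a` with `|a| ≤ K` of the characteristic polynomials of the principal
submatrices of size `k ≥ 2` of `X` are isolated. -/
theorem result (n K : ℕ) : ∃ c : ℝ, 0 < c ∧ ∃ Z₀ : ℝ, ∀ Z : ℕ, Z₀ ≤ Z →
    ∀ M : Matrix (Fin n) (Fin n) ℤ, ∃ X : Matrix (Fin n) (Fin n) ℤ,
      (∀ i j, M i j < X i j ∧ X i j ≤ M i j + Z) ∧ (∀ i j, Isolated c Z (X i j)) ∧
      (∀ D : Matrix (Fin n) (Fin n) ℤ, (∀ i j, |D i j| ≤ K) →
        ∀ k : ℕ, 2 ≤ k → ∀ r s : Fin k ↪ Fin n, Isolated c Z ((X + D).submatrix r s).det) ∧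
      (∀ k : ℕ, 2 ≤ k → ∀ r : Fin k ↪ Fin n, ∀ a : ℤ, |a| ≤ K →
        Isolated c Z ((X.submatrix r r).charpoly.eval a)) := by
  classical
  obtain ⟨em, hem⟩ : ∃ em : ∀ I J : Finset (Fin n), I.card = J.card → (I ↪ Fin n),
      ∀ I J h, Set.range (em I J h) = (J : Set (Fin n)) := by
    refine ⟨fun I J h => (Finset.equivOfCardEq h).toEmbedding.trans (Function.Embedding.subtype _),
      fun I J h => ?_⟩
    ext x
    constructor
    · rintro ⟨y, rfl⟩
      exact (Finset.equivOfCardEq h y).2
    · intro hx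
      exact ⟨(Finset.equivOfCardEq h).symm ⟨x, hx⟩, by simp⟩
  obtain ⟨c, hc, Z₀, h⟩ := Pool.Agent.X145.ML.neighbours
    (ι := {t : Finset (Fin n) × Finset (Fin n) × (Fin n × Fin n → Fin (2 * K + 1)) //
      t.1.Nonempty ∧ t.1.card = t.2.1.card ∧
      (∀ k : Fin n × Fin n, ¬ (k.1 ∈ t.1 ∧ k.2 ∈ t.2.1) → (t.2.2 k : ℕ) = K) ∧
      (2 ≤ t.1.card ∨ ∀ k, (t.2.2 k : ℕ) = K)})
    n n K (fun t => t.1.1) (fun t => em t.1.1 t.1.2.1 t.2.2.1) (fun t k => (t.1.2.2 k : ℤ) - K)
    (fun t => t.2.1)
    (fun t k => by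
      have := (t.1.2.2 k).2
      rw [abs_le]
      constructor <;> omega)
    (by
      rintro ⟨⟨I, J, D⟩, h1, h2, h3, h4⟩ ⟨⟨I', J', D'⟩, h1', h2', h3', h4'⟩ hne hI hJ
      dsimp only at h1 h2 h3 h4 h1' h2' h3' h4' hI hJ ⊢
      subst hI
      rw [hem, hem] at hJ
      have hJ' : J = J' := by exact_mod_cast hJ
      subst hJ'
      have hex : ∃ k : Fin n × Fin n, (D k : ℕ) ≠ D' k := by
        by_contra hcon
        push Not at hcon
        apply hne
        have e1 : D = D' := by
          funext k
          exact Fin.ext (hcon k)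
        subst e1
        rfl
      obtain ⟨k, hk⟩ := hex
      have hkI : k.1 ∈ I ∧ k.2 ∈ J := by
        by_contra hcon
        exact hk ((h3 k hcon).trans (h3' k hcon).symm)
      refine ⟨?_, ?_⟩
      · rcases h4 with h4 | h4
        · exact h4
        · rcases h4' with h4' | h4'
          · exact h4'
          · exact absurd ((h4 k).trans (h4' k).symm) hk
      · have hk2 : k.2 ∈ Set.range (em I J h2) := by
          rw [hem]
          exact hkI.2
        obtain ⟨b, hb⟩ := hk2
        refine ⟨⟨k.1, hkI.1⟩, b, ?_⟩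
        rw [hb]
        intro h5
        apply hk
        have : ((k.1, k.2) : Fin n × Fin n) = k := rfl
        rw [this] at h5
        omega)
  have hmin : ∀ Z : ℕ, Z₀ ≤ Z → ∀ M : Matrix (Fin n) (Fin n) ℤ,
      ∃ X : Matrix (Fin n) (Fin n) ℤ,
      (∀ i j, M i j < X i j ∧ X i j ≤ M i j + Z) ∧ (∀ i j, Isolated c Z (X i j)) ∧
      (∀ D : Matrix (Fin n) (Fin n) ℤ, (∀ i j, |D i j| ≤ K) →
        ∀ k : ℕ, 2 ≤ k → ∀ r s : Fin k ↪ Fin n, Isolated c Z ((X + D).submatrix r s).det) := by
    intro Z hZ M
    obtain ⟨A, hA1, hA2⟩ := h Z hZ (fun k => M k.1 k.2)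
    refine ⟨Matrix.of fun i j => A (i, j), fun i j => hA1 (i, j), fun i j t ht => ?_,
      fun D hD k hk r s => ?_⟩
    · refine hA2 ⟨({i}, {j}, fun _ => ⟨K, by omega⟩), Finset.singleton_nonempty i, by simp,
        fun _ _ => rfl, Or.inr fun _ => rfl⟩ t ?_
      have e : ∀ g : ({i} : Finset (Fin n)) ↪ Fin n, Set.range g = (({j} : Finset (Fin n)) : Set (Fin n)) →
          Pool.Agent.X145.PM.mnr g (A + fun _ => ((K : ℤ) - K)) = A (i, j) := by
        intro g hg
        unfold Pool.Agent.X145.PM.mnr
        have hi : i ∈ ({i} : Finset (Fin n)) := Finset.mem_singleton_self i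
        rw [Matrix.det_eq_elem_of_subsingleton _ (⟨i, hi⟩ : ({i} : Finset (Fin n)))]
        rw [Matrix.of_apply]
        have h5 : g ⟨i, hi⟩ ∈ Set.range g := ⟨_, rfl⟩
        rw [hg] at h5
        have h6 : g ⟨i, hi⟩ = j := by simpa using h5
        rw [h6]
        simp
      have e' := e (em {i} {j} (by simp)) (hem _ _ _)
      dsimp only
      rw [e']
      exact ht
    · -- the rows and columns
      obtain ⟨I, hI⟩ : ∃ I : Finset (Fin n), I = Finset.univ.map r := ⟨_, rfl⟩
      obtain ⟨J, hJ⟩ : ∃ J : Finset (Fin n), J = Finset.univ.map s := ⟨_, rfl⟩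
      have hcI : I.card = k := by rw [hI]; simp
      have hcJ : J.card = k := by rw [hJ]; simp
      have hIJ : I.card = J.card := hcI.trans hcJ.symm
      obtain ⟨D', hD'⟩ : ∃ D' : Fin n × Fin n → Fin (2 * K + 1),
          (∀ k : Fin n × Fin n, k.1 ∈ I ∧ k.2 ∈ J → ((D' k : ℕ) : ℤ) - K = D k.1 k.2) ∧
          ∀ k : Fin n × Fin n, ¬ (k.1 ∈ I ∧ k.2 ∈ J) → (D' k : ℕ) = K := by
        refine ⟨fun k => if k.1 ∈ I ∧ k.2 ∈ J then ⟨(D k.1 k.2 + K).toNat, ?_⟩ else
          ⟨K, by omega⟩, fun k hk => ?_, fun k hk => ?_⟩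
        · have := hD k.1 k.2
          rw [abs_le] at this
          omega
        · simp only [if_pos hk]
          have := hD k.1 k.2
          rw [abs_le] at this
          show (((D k.1 k.2 + K).toNat : ℕ) : ℤ) - K = D k.1 k.2
          omega
        · simp only [if_neg hk]
      have hrI : ∀ a : Fin k, r a ∈ I := fun a => by rw [hI]; simp
      obtain ⟨ρ, hρ⟩ : ∃ ρ : Fin k ≃ I, ∀ a, ((ρ a : I) : Fin n) = r a := by
        refine ⟨Equiv.ofBijective (fun a => ⟨r a, hrI a⟩) ⟨fun a b hab => ?_, fun y => ?_⟩,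
          fun a => rfl⟩
        · exact r.injective (congrArg Subtype.val hab)
        · have hy : (y : Fin n) ∈ Finset.univ.map r := by
            rw [← hI]
            exact y.2
          rw [Finset.mem_map] at hy
          obtain ⟨a, -, ha⟩ := hy
          exact ⟨a, Subtype.ext ha⟩
      have hex : ∀ b : Fin k, ∃ b' : Fin k, s b' = em I J hIJ (ρ b) := by
        intro b
        have h5 : em I J hIJ (ρ b) ∈ Set.range (em I J hIJ) := ⟨_, rfl⟩
        rw [hem] at h5
        have h6 : ∀ x : Fin n, x ∈ (J : Set (Fin n)) → ∃ b' : Fin k, s b' = x := by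
          intro x hx
          rw [hJ] at hx
          simpa using hx
        exact h6 _ h5
      choose σ hσ using hex
      have hσi : Function.Injective σ := by
        intro x y hxy
        apply ρ.injective
        apply (em I J hIJ).injective
        rw [← hσ, ← hσ, hxy]
      obtain ⟨τ, hτ⟩ : ∃ τ : Equiv.Perm (Fin k), ∀ i, τ i = σ i :=
        ⟨Equiv.ofBijective σ (Finite.injective_iff_bijective.mp hσi), fun _ => rfl⟩
      obtain ⟨ε, hε, hεm⟩ : ∃ ε : ℤ, (ε = 1 ∨ ε = -1) ∧
          Pool.Agent.X145.PM.mnr (em I J hIJ) (A + fun k => (((D' k : ℕ) : ℤ) - K)) =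
          ε * (((Matrix.of fun i j => A (i, j)) + D).submatrix r s).det := by
        refine ⟨(Equiv.Perm.sign τ : ℤ), ?_, ?_⟩
        · rcases Int.units_eq_one_or (Equiv.Perm.sign τ) with h5 | h5
          · left; rw [h5]; rfl
          · right; rw [h5]; rfl
        · rw [← Int.cast_id (n := ((Equiv.Perm.sign τ : ℤˣ) : ℤ)), ← Matrix.det_permute' τ]
          unfold Pool.Agent.X145.PM.mnr
          rw [← Matrix.det_submatrix_equiv_self ρ]
          congr 1
          ext x y
          rw [Matrix.submatrix_apply, Matrix.of_apply, Matrix.submatrix_apply,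
            Matrix.submatrix_apply, Matrix.add_apply, Matrix.of_apply, id, hτ, hσ, hρ,
            Pi.add_apply, hD'.1 (r x, em I J hIJ (ρ y)) ⟨hrI x, ?_⟩]
          have h5 : em I J hIJ (ρ y) ∈ Set.range (em I J hIJ) := ⟨_, rfl⟩
          rw [hem] at h5
          exact h5
      have key : Isolated c Z (Pool.Agent.X145.PM.mnr (em I J hIJ)
          (A + fun k => (((D' k : ℕ) : ℤ) - K))) := by
        intro t ht
        have hI0 : I.Nonempty := Finset.card_pos.mp (by omega)
        have hI2 : 2 ≤ I.card := by omega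
        exact hA2 ⟨(I, J, D'), hI0, hIJ, hD'.2, Or.inl hI2⟩ t ht
      rw [hεm] at key
      rcases hε with h5 | h5
      · rw [h5, one_mul] at key
        exact key
      · rw [h5, neg_one_mul] at key
        have := key.neg
        rwa [neg_neg] at this
  refine ⟨c, hc, Z₀, fun Z hZ M => ?_⟩
  obtain ⟨X, hX1, hX2, hX3⟩ := hmin Z hZ M
  refine ⟨X, hX1, hX2, hX3, fun k hk r a ha => ?_⟩
  have h5 := hX3 (-(a • (1 : Matrix (Fin n) (Fin n) ℤ))) (fun i j => by
    rw [Matrix.neg_apply, Matrix.smul_apply, abs_neg, Matrix.one_apply]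
    split_ifs
    · simpa using ha
    · simp) k hk r r
  have e : (X + -(a • (1 : Matrix (Fin n) (Fin n) ℤ))).submatrix r r =
      -(Matrix.scalar (Fin k) a - X.submatrix r r) := by
    ext i j
    rw [Matrix.submatrix_apply, Matrix.add_apply, Matrix.neg_apply, Matrix.smul_apply,
      Matrix.neg_apply, Matrix.sub_apply, Matrix.submatrix_apply, Matrix.scalar_apply,
      Matrix.one_apply, Matrix.diagonal_apply]
    by_cases hij : i = j
    · subst hij
      simp
      ring
    · have : r i ≠ r j := fun h => hij (r.injective h)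
      simp [hij, this]
  rw [e, Matrix.det_neg, ← Matrix.eval_charpoly] at h5
  rcases Nat.even_or_odd (Fintype.card (Fin k)) with h6 | h6
  · rw [h6.neg_one_pow, one_mul] at h5
    exact h5
  · rw [h6.neg_one_pow, neg_one_mul] at h5
    have := h5.neg
    rwa [neg_neg] at this

end Pool.Agent.Results.MP_45ff98_nt.MinorsOfNeighbours
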