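import Mathlib
import Pool.Agent.X2.Dist

/-!
# Record prime gaps around the distances of an arbitrary planar set of `N ^ (3 / 2 + δ)` integral points

No hypothesis is assumed.  Let `δ > 0`.  There is `κ > 0` such that for all large `N` and EVERY set `E` of at least
`N ^ (3 / 2 + δ)` integral points of the square `[1, N]²` there are two points `P`, `Q` of `E` such that there is no
prime at a distance of at most `κ log N (log₂ N)² log₄ N / (log₃ N)²` from the euclidean distance `|P - Q|`.

The exponent is the one of the threshold `(d + 1) / 2` of Falconer for the distances of planar sets.  The sums over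
the pairs of points are estimated without any assumption on `E`: two separated small squares are chosen by an extremal
principle, the pairs of rows are treated by the inequality of Cauchy, and the exponential sums along the rows by the
inequality of Kusmin and Landau in its form without monotonicity.
-/

set_option autoImplicit false

namespace Pool.Agent.Results.MP_45ff98_nt.PlanarDistances

open Finset

/-- the record scale `log x (log log x)² log log log log x / (log log log x)²` -/
noncomputable def record (x : ℝ) : ℝ :=
  Real.log x * (Real.log (Real.log x)) ^ 2 * Real.log (Real.log (Real.log (Real.log x))) /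
    (Real.log (Real.log (Real.log x))) ^ 2

/-- the euclidean distance of two points with natural coordinates -/
noncomputable def dist (P Q : ℕ × ℕ) : ℝ :=
  Real.sqrt (((P.1 : ℝ) - Q.1) ^ 2 + ((P.2 : ℝ) - Q.2) ^ 2)

/-- **Record prime gaps around the distances of every planar set of `N ^ (3 / 2 + δ)` integral points.** -/
theorem result : ∀ δ : ℝ, 0 < δ → ∃ κ : ℝ, 0 < κ ∧ ∃ N₀ : ℕ, ∀ N : ℕ, N₀ ≤ N → ∀ E : Finset (ℕ × ℕ),
    (∀ P ∈ E, P.1 ∈ Icc 1 N ∧ P.2 ∈ Icc 1 N) → (N : ℝ) ^ (3 / 2 + δ) ≤ (E.card : ℝ) →
    ∃ P ∈ E, ∃ Q ∈ E, ∀ q : ℕ, q.Prime → κ * record N < |(q : ℝ) - dist P Q| := by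
  intro δ hδ
  obtain ⟨κ, hκ, h⟩ := Pool.Agent.X2.Dist.main hδ
  obtain ⟨N₀, hN⟩ := Filter.eventually_atTop.1 h
  exact ⟨κ, hκ, N₀, hN⟩

end Pool.Agent.Results.MP_45ff98_nt.PlanarDistances
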