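import Pool.Agent.X164.MP.DiagMain

set_option autoImplicit false

open Polynomial

namespace Pool.Agent.Results.MP_45ff98_nt.SolutionsOfCongruences

/-- The record scale `f(x) = log x (log₂ x)² log₄ x / (log₃ x)²` (iterated natural logarithms): the
order of the largest prime gaps which are known to occur up to `x`. -/
noncomputable def f (x : ℝ) : ℝ :=
  Real.log x * (Real.log (Real.log x)) ^ 2 * Real.log (Real.log (Real.log (Real.log x))) /
    (Real.log (Real.log (Real.log x))) ^ 2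

/-- **Record prime gaps around all coordinates of solutions of congruences in boxes.** For all
`r ≥ 3`, `k` and `ε > 0` there are `κ > 0` and `p₀` such that for every prime `p ≥ p₀`, all
polynomials `F 0, …, F (r - 1)` over `ℤ/p` with degrees between `2` and `k`, every `c ∈ ℤ/p` and all
intervals `(L j, R j]` in `[0, p)` with lengths at least `p ^ ε` and product of the lengths at least
`p ^ (r / 2 + 1 + ε)`: the congruence `F 0 (x 0) + … + F (r - 1) (x (r - 1)) ≡ c` modulo `p` has a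
solution with `x j ∈ (L j, R j]` such that no prime is within `κ f(p)` of any of the numbers
`x 0, …, x (r - 1)`. -/
theorem result (r k : ℕ) (hr : 3 ≤ r) (ε : ℝ) (hε : 0 < ε) : ∃ κ : ℝ, 0 < κ ∧ ∃ p₀ : ℕ,
    ∀ (p : ℕ) [Fact p.Prime], p₀ ≤ p → ∀ F : Fin r → (ZMod p)[X],
      (∀ j, 2 ≤ (F j).natDegree) → (∀ j, (F j).natDegree ≤ k) → ∀ (c : ZMod p) (L R : Fin r → ℕ),
      (∀ j, R j < p) → (∀ j, (p : ℝ) ^ ε ≤ (R j : ℝ) - L j) →
      (p : ℝ) ^ ((r : ℝ) / 2 + 1 + ε) ≤ ∏ j, ((R j : ℝ) - L j) →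
      ∃ x : Fin r → ℕ, (∀ j, L j < x j ∧ x j ≤ R j) ∧ ∑ j, (F j).eval (x j : ZMod p) = c ∧
        ∀ j, ∀ q : ℕ, q.Prime → κ * f p < |(q : ℝ) - x j| :=
  Pool.Agent.X164.MP.diag_main r k hr ε hε

end Pool.Agent.Results.MP_45ff98_nt.SolutionsOfCongruences
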